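import Pool.Agent.KO.All

/-!
# Projective fiberwise bimeromorphic models of Moishezon families (MP_eb6d9f_ag)

The answer to the question is negative: there is a flat proper Moishezon family over the disc
whose central fibre, of dimension three, has canonical singularities, and which over no smaller
disc is fiberwise bimeromorphic to a flat projective family whose central fibre has canonical
singularities.
-/

set_option autoImplicit false

theorem Pool.Agent.Results.MP_eb6d9f_ag.NoCanonicalModel.result :
    ∃ (X : Type) (_ : TopologicalSpace X) (O : Pool.Agent.KO.Shf X) (g : X → ℂ),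
      Pool.Agent.KO.IsFamily O g ∧ Pool.Agent.KO.CanonFib O g 0 3 ∧
        ∀ r : ℝ, 0 < r → r ≤ 1 → ∀ (N : ℕ) (S : Set (Pool.Agent.KO.PN N × ℂ)),
          Pool.Agent.KO.IsGoodModel r S 3 → ∀ b : Pool.Agent.KO.Bimer O g r S, ¬ b.Fiberwise :=
  Pool.Agent.KO.statement_true
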